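import Mathlib

/-!
# Holomorphic functions on the ball of complex n-space with radial limit zero almost everywhere

Definitions, basic facts and the statements of the pieces.

Plan of the proof. The function is an infinite product of stages. A stage is the polynomial
`g z = ∏ p ((ip z w) ^ M)`, the product over a finite set of unit vectors `w`, where `p` is a polynomial in
one variable, close to `1` on a small disc, bounded by `1 + τ` on the closed unit disc minus a thin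
sector and bounded by `1 / 2` there outside a second small disc (Runge). The directions `z` for which
some `(ip z w) ^ M` is in the thin sector have small measure (rotations), the others are good for all
points of the radius.
-/

set_option autoImplicit false

open MeasureTheory Polynomial

namespace Pool.Agent.Run7.h693.RZ

/-- Euclidean norm of complex n-space. -/
noncomputable def nrm {n : ℕ} (z : Fin n → ℂ) : ℝ := Real.sqrt (∑ i, ‖z i‖ ^ 2)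

/-- Inner product, linear in the first variable. -/
noncomputable def ip {n : ℕ} (z w : Fin n → ℂ) : ℂ := ∑ i, z i * (starRingEnd ℂ) (w i)

/-- Closed Euclidean ball. -/
def Bal (n : ℕ) (a : ℝ) : Set (Fin n → ℂ) := {z | nrm z ≤ a}

/-- Open sector around the positive real axis (thin if `c` is close to `1`). -/
def Sec (c : ℝ) : Set ℂ := {u | c * ‖u‖ < u.re}

lemma nrm_nonneg {n : ℕ} (z : Fin n → ℂ) : 0 ≤ nrm z := Real.sqrt_nonneg _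

lemma nrm_smul {n : ℕ} (c : ℂ) (z : Fin n → ℂ) : nrm (c • z) = ‖c‖ * nrm z := by
  unfold nrm
  have : ∑ i, ‖(c • z) i‖ ^ 2 = ‖c‖ ^ 2 * ∑ i, ‖z i‖ ^ 2 := by
    rw [Finset.mul_sum]
    refine Finset.sum_congr rfl (fun i _ => ?_)
    simp [mul_pow]
  rw [this, Real.sqrt_mul (by positivity), Real.sqrt_sq (norm_nonneg _)]

lemma ip_smul {n : ℕ} (c : ℂ) (z w : Fin n → ℂ) : ip (c • z) w = c * ip z w := by
  unfold ip
  rw [Finset.mul_sum]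
  refine Finset.sum_congr rfl (fun i _ => ?_)
  simp [mul_assoc]

lemma norm_ip_le {n : ℕ} (z w : Fin n → ℂ) : ‖ip z w‖ ≤ nrm z * nrm w := by
  unfold ip nrm
  refine (norm_sum_le _ _).trans ?_
  have : ∀ i, ‖z i * (starRingEnd ℂ) (w i)‖ = ‖z i‖ * ‖w i‖ := by
    intro i; simp
  simp only [this]
  exact Real.sum_mul_le_sqrt_mul_sqrt _ _ _

lemma ip_self {n : ℕ} (z : Fin n → ℂ) : ip z z = ((nrm z ^ 2 : ℝ) : ℂ) := by
  unfold ip nrm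
  rw [Real.sq_sqrt (by positivity)]
  push_cast
  refine Finset.sum_congr rfl (fun i _ => ?_)
  rw [Complex.mul_conj, Complex.normSq_eq_norm_sq]
  push_cast
  rfl

lemma continuous_nrm (n : ℕ) : Continuous (nrm : (Fin n → ℂ) → ℝ) := by
  unfold nrm
  fun_prop

lemma continuous_ip {n : ℕ} (w : Fin n → ℂ) : Continuous (fun z => ip z w) := by
  unfold ip
  fun_prop

lemma differentiable_ip {n : ℕ} (w : Fin n → ℂ) : Differentiable ℂ (fun z => ip z w) := by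
  unfold ip
  fun_prop

lemma norm_le_nrm {n : ℕ} (z : Fin n → ℂ) : ‖z‖ ≤ nrm z := by
  rw [pi_norm_le_iff_of_nonneg (nrm_nonneg z)]
  intro i
  unfold nrm
  apply Real.le_sqrt_of_sq_le
  exact Finset.single_le_sum (f := fun i => ‖z i‖ ^ 2) (fun j _ => by positivity) (Finset.mem_univ i)

lemma nrm_eq_zero {n : ℕ} {z : Fin n → ℂ} : nrm z = 0 ↔ z = 0 := by
  constructor
  · intro h
    have := norm_le_nrm z
    rw [h] at this
    exact norm_le_zero_iff.1 this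
  · rintro rfl
    simp [nrm]

lemma nrm_pos {n : ℕ} {z : Fin n → ℂ} (hz : z ≠ 0) : 0 < nrm z :=
  lt_of_le_of_ne (nrm_nonneg z) (fun h => hz (nrm_eq_zero.1 h.symm))

lemma isClosed_Bal (n : ℕ) (a : ℝ) : IsClosed (Bal n a) :=
  isClosed_le (continuous_nrm n) continuous_const

lemma isCompact_Bal (n : ℕ) (a : ℝ) : IsCompact (Bal n a) := by
  apply Metric.isCompact_of_isClosed_isBounded (isClosed_Bal n a)
  refine (Metric.isBounded_closedBall (x := (0 : Fin n → ℂ)) (r := a)).subset ?_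
  intro z hz
  rw [mem_closedBall_zero_iff]
  exact (norm_le_nrm z).trans hz

lemma measurableSet_Bal (n : ℕ) (a : ℝ) : MeasurableSet (Bal n a) := (isClosed_Bal n a).measurableSet

lemma volume_Bal_lt_top (n : ℕ) (a : ℝ) : volume (Bal n a) < ⊤ := (isCompact_Bal n a).measure_lt_top

lemma isOpen_Sec (c : ℝ) : IsOpen (Sec c) :=
  isOpen_lt (continuous_const.mul continuous_norm) Complex.continuous_re

lemma Sec_smul {c : ℝ} {u : ℂ} {s : ℝ} (hs : 0 ≤ s) (h : (s : ℂ) * u ∈ Sec c) : u ∈ Sec c := by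
  unfold Sec at *
  simp only [Set.mem_ofPred_eq, norm_mul, Complex.norm_real, Real.norm_of_nonneg hs,
    Complex.re_ofReal_mul] at *
  rcases hs.eq_or_lt with h0 | h0
  · subst h0; simp at h
  · have : s * (c * ‖u‖) < s * u.re := by linarith
    exact lt_of_mul_lt_mul_left this hs

/-! ## Pieces -/

/-- **INV.** Runge for `1 / (1 - T z)`. Copy the proof of
`Pool.Agent.Results.MP_2e8a17_an.RadialLimits.approx_inv` (general compact `K` in the unit disc and general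
bound `B` of the inverses instead of `KK c` and `1 / (1 - c)`): in the closure `A` of the polynomials in
`C(K, ℂ)` the element `1 - l x` is a unit with inverse bounded by `B` for all `l ≤ T`; steps `d < 1 / B`. -/
def S_INV : Prop := ∀ (K : Set ℂ) (B T : ℝ), IsCompact K → (∀ z ∈ K, ‖z‖ ≤ 1) → 0 < B → 0 ≤ T →
  (∀ l : ℝ, 0 ≤ l → l ≤ T → ∀ z ∈ K, 1 ≤ B * ‖1 - (l : ℂ) * z‖) →
  ∀ ε : ℝ, 0 < ε → ∃ p : ℂ[X], ∀ z ∈ K, ‖p.eval z - (1 - (T : ℂ) * z)⁻¹‖ ≤ ε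

/-- **ONE.** The polynomial of one variable. Proof: let `s = 1 - c`, `σ = min τ (1/4)`, take `J` with
`8 / (s J) ≤ σ`, `N = J` (or larger), `t_j = 8 ^ N / 2 ^ (j + 1)` for `j < J`, and
`h z = (1 / J) ∑_j (1 - t_j z)⁻¹`. For `z` outside `Sec c` one has `‖1 - t z‖ ≥ s max 1 (t ‖z‖)`
(`lower_bound` of the file `MP_2e8a17_an/RadialLimits`), hence `‖(1 - t z)⁻¹‖ ≤ 1 + s⁻¹ min x x⁻¹` with
`x = t ‖z‖`, and the dyadic sum (`dyadic_sum'` there, after reversing the order of `j`) gives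
`‖h z‖ ≤ 1 + 4 / (s J)`. If `‖z‖ ≤ 8 ^ (-N)` then `t_j ‖z‖ ≤ 2 ^ (-j-1)`, and
`‖h z - 1‖ ≤ (1 / J) ∑ 2 t_j ‖z‖ ≤ 2 / J`. If `‖z‖ ≥ 2 ^ (-N)` (outside `Sec c`) then
`‖(1 - t_j z)⁻¹‖ ≤ 2 ^ (j+1) / (s 4 ^ N)` and `‖h z‖ ≤ 2 / (s J)`. Approximate every `(1 - t_j z)⁻¹` within
`σ / 4` by `S_INV` on `K = {‖z‖ ≤ 1, z ∉ Sec c or ‖z‖ ≤ 8 ^ (-N)}` with `B = max 2 s⁻¹`. -/
def S_ONE : Prop := ∀ c : ℝ, 0 ≤ c → c < 1 → ∀ τ : ℝ, 0 < τ → ∃ (N : ℕ) (p : ℂ[X]), 1 ≤ N ∧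
  (∀ z : ℂ, ‖z‖ ≤ (1 / 8) ^ N → ‖p.eval z - 1‖ ≤ τ) ∧
  (∀ z : ℂ, ‖z‖ ≤ 1 → z ∉ Sec c → ‖p.eval z‖ ≤ 1 + τ) ∧
  (∀ z : ℂ, ‖z‖ ≤ 1 → z ∉ Sec c → (1 / 2) ^ N ≤ ‖z‖ → ‖p.eval z‖ ≤ 1 / 2)

/-- **SEC.** Rotated copies of a thin sector are disjoint. Proof: let `d > 0` be a lower bound of the
distances of distinct `Q`-th roots of unity `v ^ j`, `j < Q` (finitely many, `v` is a primitive root,
`Complex.isPrimitiveRoot_exp`), and take `c` in `[0, 1)` with `8 (1 - c) ≤ d ^ 2` (and `c = 0` is fine for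
`Q = 1`). If `x = v ^ j u` and `y = v ^ j' u` are in `Sec c` then `u ≠ 0` and, with `ρ = ‖u‖`,
`‖x / ρ - 1‖ ^ 2 = 2 - 2 re x / ρ < 2 - 2 c`, the same for `y`, so `‖v ^ j - v ^ j'‖ < 2 √(2 - 2 c) ≤ d`. -/
def S_SEC : Prop := ∀ Q : ℕ, 1 ≤ Q → ∃ c : ℝ, 0 ≤ c ∧ c < 1 ∧ ∀ (u : ℂ) (j j' : ℕ), j < Q → j' < Q →
  Complex.exp (2 * Real.pi * Complex.I / Q) ^ j * u ∈ Sec c →
  Complex.exp (2 * Real.pi * Complex.I / Q) ^ j' * u ∈ Sec c → j = j'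

/-- **ROT.** Multiplication by a unit complex number preserves the volume (`volume_preserving_pi` and the
linear isometry `rotation` of `ℂ`). -/
def S_ROT : Prop := ∀ (n : ℕ) (ω : ℂ), ‖ω‖ = 1 →
  MeasurePreserving (fun z : Fin n → ℂ => ω • z) volume volume

/-- **MEA.** The bad directions of one vector have small measure. Proof: `c` from `S_SEC`. Let
`v = exp (2 π i / Q)`, `ξ = exp (2 π i / (Q M))`, so `ξ ^ M = v`. The sets
`A_j = {z | v ^ j * (ip z w) ^ M ∈ Sec c} ∩ Bal n a`, `j < Q`, are pairwise disjoint subsets of `Bal n a`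
by `S_SEC`, and `A_j` is the preimage of `A_0` under `z ↦ ξ ^ j • z`, so it has the same volume. -/
def S_MEA : Prop := ∀ (n Q : ℕ), 1 ≤ Q → ∃ c : ℝ, 0 ≤ c ∧ c < 1 ∧ ∀ (M : ℕ), 1 ≤ M →
  ∀ (w : Fin n → ℂ) (a : ℝ),
  (Q : ENNReal) * volume ({z : Fin n → ℂ | (ip z w) ^ M ∈ Sec c} ∩ Bal n a) ≤ volume (Bal n a)

/-- **COV.** Finitely many unit vectors cover the sphere. Proof: the sphere `{nrm z = 1}` is compact
(closed in `Bal n 1`), the sets `{z | 3 / 4 < ‖ip z w‖ ^ N}` are open and contain `w` (`ip_self`). -/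
def S_COV : Prop := ∀ (n N : ℕ), ∃ H : Finset (Fin n → ℂ), (∀ w ∈ H, nrm w = 1) ∧
  ∀ z : Fin n → ℂ, nrm z = 1 → ∃ w ∈ H, 3 / 4 ≤ ‖ip z w‖ ^ N

/-- **STG.** One stage. Proof: `N1 ≥ 1` with `R ^ N1 ≤ 1 / 8`; `H` from `S_COV n N1`, `m = card H`;
`τ > 0` with `(1 + τ) ^ m ≤ 1 + ε`; `Q ≥ 1` with `m ≤ ε Q`; `c` from `S_MEA n Q`; `N, p` from `S_ONE c τ`;
`M = N1 * N`, `g z = ∏ w ∈ H, p.eval ((ip z w) ^ M)`, `Z = ⋃ w ∈ H, {z | (ip z w) ^ M ∈ Sec c}`,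
`r0 = 1 - 1 / (3 N1)` (so that `r0 ^ N1 ≥ 2 / 3` by Bernoulli). -/
def S_STG : Prop := ∀ (n : ℕ) (ε R : ℝ), 0 < ε → ε ≤ 1 → 0 ≤ R → R < 1 →
  ∃ (g : (Fin n → ℂ) → ℂ) (Z : Set (Fin n → ℂ)) (r0 : ℝ),
    Differentiable ℂ g ∧ MeasurableSet Z ∧ 0 ≤ r0 ∧ r0 < 1 ∧
    (∀ z, nrm z ≤ R → ‖g z - 1‖ ≤ ε) ∧
    (∀ a : ℝ, volume (Z ∩ Bal n a) ≤ ENNReal.ofReal ε * volume (Bal n a)) ∧
    (∀ z, z ∉ Z → z ≠ 0 → ∀ r : ℝ, 0 ≤ r → r ≤ 1 → ‖g (((r / nrm z : ℝ) : ℂ) • z)‖ ≤ 1 + ε) ∧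
    (∀ z, z ∉ Z → z ≠ 0 → ∀ r : ℝ, r0 ≤ r → r ≤ 1 →
      ‖g (((r / nrm z : ℝ) : ℂ) • z)‖ ≤ 1 / 2 * (1 + ε))

/-- **BCL.** Borel-Cantelli on every ball (`ae_eventually_notMem` for the restricted measures). -/
def S_BCL : Prop := ∀ (n : ℕ) (Z : ℕ → Set (Fin n → ℂ)), (∀ k, MeasurableSet (Z k)) →
  (∀ (k : ℕ) (a : ℝ), volume (Z k ∩ Bal n a) ≤ ENNReal.ofReal ((1 / 2) ^ k) * volume (Bal n a)) →
  ∀ᵐ z ∂(volume : Measure (Fin n → ℂ)), ∀ᶠ k in Filter.atTop, z ∉ Z k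

/-- **LIM.** Locally uniform sums of holomorphic functions are holomorphic. Proof as in
`Pool.Agent.Helper704.RadBall.main` (file `Helper704/RB/E.lean`, `hFd`): Cauchy estimate
`Complex.norm_fderiv_le_div_of_mapsTo_ball` on small balls, `hasFDerivAt_tsum_of_isPreconnected`
(split off finitely many terms). -/
def S_LIM : Prop := ∀ (n : ℕ) (P : ℕ → (Fin n → ℂ) → ℂ), (∀ k, Differentiable ℂ (P k)) →
  (∀ R : ℝ, 0 ≤ R → R < 1 → ∃ (C : ℝ) (k0 : ℕ), ∀ k, k0 ≤ k → ∀ z, nrm z ≤ R →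
    ‖P k z‖ ≤ C * (1 / 2) ^ k) →
  DifferentiableOn ℂ (fun z => ∑' k, P k z) {z : Fin n → ℂ | nrm z < 1} ∧
    ∀ z : Fin n → ℂ, nrm z < 1 → Summable (fun k => P k z)

/-- **PRO.** The product of the stages. Proof: `F K z = ∏ k < K, g k z`, `P k = F (k+1) - F k`,
`f = 1 + ∑' P k`, the limit of `F K` on the open ball. For `nrm z ≤ 1 - (1/2)^(j+1)` and `K ≥ j`,
`‖F K z‖ ≤ 2 ‖F j z‖` (as `∏ (1 + ε k) ≤ exp (1/2) ≤ 2`) and `F j` is bounded on `Bal n 1`. At the origin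
`‖F K 0‖ ≥ 1 - ∑ ε k ≥ 1 / 2`. If `z ≠ 0` is outside `Z k` for `k ≥ k0`, then for given `L` and all `r < 1`
close to `1`, `‖F K (r / nrm z • z)‖ ≤ 2 C (1/2)^L` for all large `K`, `C` a bound of `F k0` on `Bal n 1`. -/
def S_PRO : Prop := ∀ (n : ℕ) (g : ℕ → (Fin n → ℂ) → ℂ) (Z : ℕ → Set (Fin n → ℂ)) (r0 : ℕ → ℝ),
  (∀ k, Differentiable ℂ (g k)) → (∀ k, 0 ≤ r0 k ∧ r0 k < 1) →
  (∀ k z, nrm z ≤ 1 - (1 / 2) ^ (k + 1) → ‖g k z - 1‖ ≤ (1 / 2) ^ (k + 2)) →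
  (∀ k z, z ∉ Z k → z ≠ 0 → ∀ r : ℝ, 0 ≤ r → r ≤ 1 →
    ‖g k (((r / nrm z : ℝ) : ℂ) • z)‖ ≤ 1 + (1 / 2) ^ (k + 2)) →
  (∀ k z, z ∉ Z k → z ≠ 0 → ∀ r : ℝ, r0 k ≤ r → r ≤ 1 →
    ‖g k (((r / nrm z : ℝ) : ℂ) • z)‖ ≤ 1 / 2 * (1 + (1 / 2) ^ (k + 2))) →
  ∃ f : (Fin n → ℂ) → ℂ, DifferentiableOn ℂ f {z : Fin n → ℂ | nrm z < 1} ∧ f 0 ≠ 0 ∧
    ∀ z, z ≠ 0 → (∀ᶠ k in Filter.atTop, z ∉ Z k) →
      Filter.Tendsto (fun r : ℝ => f (((r / nrm z : ℝ) : ℂ) • z)) (nhdsWithin (1 : ℝ) (Set.Iio 1))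
        (nhds (0 : ℂ))

end Pool.Agent.Run7.h693.RZ
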