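import Pool.Agent.Run7.h693.RZ.STG

/-!
# Final assembly
-/

set_option autoImplicit false

open MeasureTheory Polynomial
open scoped ENNReal

namespace Pool.Agent.Run7.h693.RZ

theorem fin (hstg : S_STG) (hbcl : S_BCL) (hpro : S_PRO) :
    ∀ n : ℕ, 1 < n → ∃ f : (Fin n → ℂ) → ℂ,
      DifferentiableOn ℂ f {z : Fin n → ℂ | ∑ i, ‖z i‖ ^ 2 < 1} ∧
      (∃ z : Fin n → ℂ, ∑ i, ‖z i‖ ^ 2 < 1 ∧ f z ≠ 0) ∧
      ∀ᵐ z ∂(MeasureTheory.volume : MeasureTheory.Measure (Fin n → ℂ)),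
        Filter.Tendsto
          (fun r : ℝ => f (((r / Real.sqrt (∑ i, ‖z i‖ ^ 2) : ℝ) : ℂ) • z))
          (nhdsWithin (1 : ℝ) (Set.Iio 1)) (nhds (0 : ℂ)) := by
  intro n hn
  have hst : ∀ k : ℕ, ∃ (g : (Fin n → ℂ) → ℂ) (Z : Set (Fin n → ℂ)) (r0 : ℝ),
      Differentiable ℂ g ∧ MeasurableSet Z ∧ 0 ≤ r0 ∧ r0 < 1 ∧
      (∀ z, nrm z ≤ 1 - (1 / 2) ^ (k + 1) → ‖g z - 1‖ ≤ (1 / 2) ^ (k + 2)) ∧
      (∀ a : ℝ, volume (Z ∩ Bal n a) ≤ ENNReal.ofReal ((1 / 2) ^ (k + 2)) * volume (Bal n a)) ∧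
      (∀ z, z ∉ Z → z ≠ 0 → ∀ r : ℝ, 0 ≤ r → r ≤ 1 →
        ‖g (((r / nrm z : ℝ) : ℂ) • z)‖ ≤ 1 + (1 / 2) ^ (k + 2)) ∧
      (∀ z, z ∉ Z → z ≠ 0 → ∀ r : ℝ, r0 ≤ r → r ≤ 1 →
        ‖g (((r / nrm z : ℝ) : ℂ) • z)‖ ≤ 1 / 2 * (1 + (1 / 2) ^ (k + 2))) := by
    intro k
    have h1 : (1 / 2 : ℝ) ^ (k + 1) ≤ 1 := pow_le_one₀ (by norm_num) (by norm_num)
    have h2 : (0 : ℝ) < (1 / 2 : ℝ) ^ (k + 1) := by positivity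
    exact hstg n ((1 / 2) ^ (k + 2)) (1 - (1 / 2) ^ (k + 1)) (by positivity)
      (pow_le_one₀ (by norm_num) (by norm_num)) (by linarith) (by linarith)
  choose g Z r0 hg hZ hr0 hr1 h1 h2 h3 h4 using hst
  have hae := hbcl n Z hZ (by
    intro k a
    refine (h2 k a).trans ?_
    gcongr ENNReal.ofReal ?_ * _
    exact pow_le_pow_of_le_one (by norm_num) (by norm_num) (by omega))
  obtain ⟨f, hf, hf0, hfr⟩ := hpro n g Z r0 hg (fun k => ⟨hr0 k, hr1 k⟩) h1 h3 h4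
  have hnrm : ∀ z : Fin n → ℂ, Real.sqrt (∑ i, ‖z i‖ ^ 2) = nrm z := fun z => rfl
  have hset : {z : Fin n → ℂ | ∑ i, ‖z i‖ ^ 2 < 1} = {z : Fin n → ℂ | nrm z < 1} := by
    ext z
    change ∑ i, ‖z i‖ ^ 2 < 1 ↔ nrm z < 1
    rw [← hnrm, Real.sqrt_lt' one_pos, one_pow]
  refine ⟨f, ?_, ⟨0, by simp, hf0⟩, ?_⟩
  · rw [hset]; exact hf
  · have h0 : ∀ᵐ z ∂(volume : Measure (Fin n → ℂ)), z ≠ 0 := by
      have : Nonempty (Fin n) := ⟨⟨0, by omega⟩⟩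
      rw [ae_iff]
      simp
    filter_upwards [hae, h0] with z hz hz0
    exact hfr z hz0 hz

end Pool.Agent.Run7.h693.RZ
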