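import Pool.Agent.Run7.h693.RZ.Defs
import Pool.Agent.Results.MP_2e8a17_an.RadialLimits

/-!
# The polynomial of one variable
-/

set_option autoImplicit false

open MeasureTheory Polynomial Filter Topology

namespace Pool.Agent.Run7.h693.RZ

open Pool.Agent.Results.MP_2e8a17_an.RadialLimits in
theorem t_ONE (hinv : S_INV) : S_ONE := by
  intro c hc0 hc1 τ hτ
  set s : ℝ := 1 - c with hs
  have hs0 : 0 < s := by rw [hs]; linarith
  have hs1 : s ≤ 1 := by rw [hs]; linarith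
  set σ : ℝ := min τ (1 / 4) with hσ
  have hσ0 : 0 < σ := lt_min hτ (by norm_num)
  have hστ : σ ≤ τ := min_le_left _ _
  have hσ4 : σ ≤ 1 / 4 := min_le_right _ _
  obtain ⟨J, hJ⟩ := exists_nat_gt (8 / (s * σ))
  have hJ0 : (0 : ℝ) < J := lt_of_le_of_lt (by positivity) hJ
  have hJ1 : 1 ≤ J := by
    have : 0 < J := by exact_mod_cast hJ0
    omega
  rw [div_lt_iff₀ (by positivity)] at hJ
  have hsJ : 4 / (s * J) ≤ σ / 2 := by
    rw [div_le_iff₀ (by positivity)]; nlinarith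
  have h2J : 2 / (J : ℝ) ≤ σ / 4 := by
    rw [div_le_iff₀ hJ0]
    nlinarith [mul_pos hJ0 hσ0, mul_le_mul_of_nonneg_right hs1 (mul_pos hJ0 hσ0).le]
  set t : ℕ → ℝ := fun j => 8 ^ J / 2 ^ (j + 1) with ht
  have ht0 : ∀ j, 0 < t j := fun j => by simp only [ht]; positivity
  have ht8 : ∀ j, t j * (1 / 8) ^ J = (1 / 2) ^ (j + 1) := by
    intro j
    simp only [ht]
    rw [div_pow, one_pow, div_pow, one_pow]
    field_simp
  have hhalf : ∀ j : ℕ, (1 / 2 : ℝ) ^ (j + 1) ≤ 1 / 2 := by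
    intro j
    rw [pow_succ]
    have : (1 / 2 : ℝ) ^ j ≤ 1 := pow_le_one₀ (by norm_num) (by norm_num)
    nlinarith
  set K : Set ℂ := {z : ℂ | ‖z‖ ≤ 1 ∧ (z.re ≤ c * ‖z‖ ∨ ‖z‖ ≤ (1 / 8) ^ J)} with hK
  have hKc : IsCompact K := by
    apply Metric.isCompact_of_isClosed_isBounded
    · rw [hK]
      apply IsClosed.inter
      · exact isClosed_le continuous_norm continuous_const
      · apply IsClosed.union
        · exact isClosed_le Complex.continuous_re (by fun_prop)
        · exact isClosed_le continuous_norm continuous_const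
    · refine (Metric.isBounded_closedBall (x := (0 : ℂ)) (r := 1)).subset ?_
      intro z hz
      simpa using hz.1
  have hsmall : ∀ (j : ℕ) (l : ℝ), 0 ≤ l → l ≤ t j → ∀ z : ℂ, ‖z‖ ≤ (1 / 8) ^ J →
      ‖(l : ℂ) * z‖ ≤ (1 / 2) ^ (j + 1) := by
    intro j l hl hlt z hz
    rw [norm_mul, Complex.norm_real, Real.norm_of_nonneg hl, ← ht8 j]
    gcongr
  have hhalf2 : ∀ (j : ℕ) (l : ℝ), 0 ≤ l → l ≤ t j → ∀ z : ℂ, ‖z‖ ≤ (1 / 8) ^ J →
      1 / 2 ≤ ‖1 - (l : ℂ) * z‖ := by
    intro j l hl hlt z hz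
    have h1 := hsmall j l hl hlt z hz
    have h2 := norm_sub_norm_le (1 : ℂ) ((l : ℂ) * z)
    rw [norm_one] at h2
    linarith [hhalf j]
  have hex : ∀ j : ℕ, ∃ p : ℂ[X], ∀ z ∈ K, ‖p.eval z - (1 - (t j : ℂ) * z)⁻¹‖ ≤ σ / 4 := by
    intro j
    refine hinv K (max 2 s⁻¹) (t j) hKc (fun z hz => hz.1) (by positivity) (ht0 j).le ?_ (σ / 4)
      (by positivity)
    intro l hl hlt z hz
    rcases hz.2 with h | h
    · have h1 := lower_bound hc0 hc1 (z := z) ⟨hz.1, h⟩ hl
      rw [← hs] at h1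
      have h2 : s * 1 ≤ s * max 1 (l * ‖z‖) := by gcongr; exact le_max_left _ _
      have h3 : s ≤ ‖1 - (l : ℂ) * z‖ := by linarith
      calc (1 : ℝ) = s⁻¹ * s := by field_simp
        _ ≤ max 2 s⁻¹ * ‖1 - (l : ℂ) * z‖ := by
          gcongr
          exact le_max_right _ _
    · have h1 := hhalf2 j l hl hlt z h
      calc (1 : ℝ) = 2 * (1 / 2) := by norm_num
        _ ≤ max 2 s⁻¹ * ‖1 - (l : ℂ) * z‖ := by
          gcongr
          exact le_max_left _ _
  choose P hP using hex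
  set Q : ℂ[X] := C ((J : ℂ)⁻¹) * ∑ j ∈ Finset.range J, P j with hQ
  set h : ℂ → ℂ := fun z => (J : ℂ)⁻¹ * ∑ j ∈ Finset.range J, (1 - (t j : ℂ) * z)⁻¹ with hh
  have hJc : ‖(J : ℂ)⁻¹‖ = (J : ℝ)⁻¹ := by simp
  have hJne : (J : ℂ) ≠ 0 := by exact_mod_cast hJ0.ne'
  have hQh : ∀ z ∈ K, ‖Q.eval z - h z‖ ≤ σ / 4 := by
    intro z hz
    have e : Q.eval z - h z = (J : ℂ)⁻¹ * ∑ j ∈ Finset.range J,
        ((P j).eval z - (1 - (t j : ℂ) * z)⁻¹) := by
      simp only [hQ, hh, eval_mul, eval_C, eval_finsetSum]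
      rw [← mul_sub, ← Finset.sum_sub_distrib]
    rw [e, norm_mul, hJc]
    calc _ ≤ (J : ℝ)⁻¹ * ∑ j ∈ Finset.range J, (σ / 4) := by
          gcongr
          exact (norm_sum_le _ _).trans (Finset.sum_le_sum (fun j _ => hP j z hz))
      _ = σ / 4 := by
          rw [Finset.sum_const, Finset.card_range, nsmul_eq_mul]
          field_simp
  -- bound on the radii
  have hb1 : ∀ z : ℂ, ‖z‖ ≤ 1 → z ∉ Sec c → ∀ j, s * max 1 (t j * ‖z‖) ≤ ‖1 - (t j : ℂ) * z‖ := by
    intro z hz hzc j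
    have h1 : z.re ≤ c * ‖z‖ := not_lt.1 hzc
    exact lower_bound hc0 hc1 (z := z) ⟨hz, h1⟩ (ht0 j).le
  refine ⟨J, Q, hJ1, ?_, ?_, ?_⟩
  · intro z hz
    have hzK : z ∈ K := ⟨hz.trans (pow_le_one₀ (by norm_num) (by norm_num)), Or.inr hz⟩
    have h1 := hQh z hzK
    have e : h z - 1 = (J : ℂ)⁻¹ * ∑ j ∈ Finset.range J,
        ((t j : ℂ) * z * (1 - (t j : ℂ) * z)⁻¹) := by
      have e1 : (1 : ℂ) = (J : ℂ)⁻¹ * ∑ j ∈ Finset.range J, (1 : ℂ) := by
        rw [Finset.sum_const, Finset.card_range, nsmul_eq_mul, mul_one]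
        field_simp
      rw [show h z - 1 = h z - (J : ℂ)⁻¹ * ∑ j ∈ Finset.range J, (1 : ℂ) by rw [← e1]]
      simp only [hh]
      rw [← mul_sub, ← Finset.sum_sub_distrib]
      congr 1
      refine Finset.sum_congr rfl (fun j _ => ?_)
      have h2 := hhalf2 j (t j) (ht0 j).le le_rfl z hz
      have h3 : (1 - (t j : ℂ) * z) ≠ 0 := by
        intro h4
        rw [h4, norm_zero] at h2
        norm_num at h2
      field_simp
      ring
    have h2 : ‖h z - 1‖ ≤ 2 / J := by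
      rw [e, norm_mul, hJc]
      calc _ ≤ (J : ℝ)⁻¹ * ∑ j ∈ Finset.range J, (1 / 2 : ℝ) ^ j := by
            gcongr
            refine (norm_sum_le _ _).trans (Finset.sum_le_sum (fun j _ => ?_))
            rw [norm_mul, norm_inv]
            have h3 := hsmall j (t j) (ht0 j).le le_rfl z hz
            have h4 := hhalf2 j (t j) (ht0 j).le le_rfl z hz
            have h5 : ‖1 - (t j : ℂ) * z‖⁻¹ ≤ 2 := by
              rw [inv_le_comm₀ (by linarith) (by norm_num)]
              linarith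
            calc _ ≤ (1 / 2 : ℝ) ^ (j + 1) * 2 := by gcongr
              _ = (1 / 2) ^ j := by rw [pow_succ]; ring
        _ ≤ (J : ℝ)⁻¹ * 2 := by
            gcongr
            have h6 := geom_sum_eq (show (1 / 2 : ℝ) ≠ 1 by norm_num) J
            rw [h6]
            have : (0 : ℝ) < (1 / 2) ^ J := by positivity
            rw [div_le_iff_of_neg (by norm_num)]
            linarith
        _ = 2 / J := by rw [mul_comm]; rfl
    calc ‖Q.eval z - 1‖ = ‖(Q.eval z - h z) + (h z - 1)‖ := by ring_nf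
      _ ≤ ‖Q.eval z - h z‖ + ‖h z - 1‖ := norm_add_le _ _
      _ ≤ τ := by linarith
  · intro z hz hzc
    have hzK : z ∈ K := ⟨hz, Or.inl (not_lt.1 hzc)⟩
    have h1 := hQh z hzK
    have h2 : ‖h z‖ ≤ 1 + 4 / (s * J) := by
      have h3 : ∀ j, ‖(1 - (t j : ℂ) * z)⁻¹‖ ≤ 1 + s⁻¹ * min (t j * ‖z‖) (t j * ‖z‖)⁻¹ := by
        intro j
        have hlb := hb1 z hz hzc j
        have hpos : 0 < ‖1 - (t j : ℂ) * z‖ := lt_of_lt_of_le (by positivity) hlb
        have hne : (1 - (t j : ℂ) * z) ≠ 0 := norm_pos_iff.1 hpos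
        have hx0 : 0 ≤ t j * ‖z‖ := by have := ht0 j; positivity
        rcases le_total (t j * ‖z‖) 1 with h4 | h4
        · have h5 : t j * ‖z‖ ≤ min (t j * ‖z‖) (t j * ‖z‖)⁻¹ ∨ t j * ‖z‖ = 0 := by
            rcases hx0.eq_or_lt with h6 | h6
            · right; exact h6.symm
            · left
              apply le_min le_rfl
              exact h4.trans ((one_le_inv₀ h6).2 h4)
          have e : (1 - (t j : ℂ) * z)⁻¹ = 1 + ((t j : ℂ) * z) * (1 - (t j : ℂ) * z)⁻¹ := by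
            field_simp
            ring
          have h7 : ‖1 - (t j : ℂ) * z‖⁻¹ ≤ s⁻¹ := by
            have : s * 1 ≤ ‖1 - (t j : ℂ) * z‖ :=
              le_trans (by gcongr; exact le_max_left _ _) hlb
            gcongr
            linarith
          have h8 : ‖(1 - (t j : ℂ) * z)⁻¹‖ ≤ 1 + s⁻¹ * (t j * ‖z‖) := by
            rw [e]
            refine (norm_add_le _ _).trans ?_
            rw [norm_one, norm_mul, norm_mul, Complex.norm_real, Real.norm_of_nonneg (ht0 j).le,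
              norm_inv]
            calc 1 + t j * ‖z‖ * ‖1 - (t j : ℂ) * z‖⁻¹ ≤ 1 + t j * ‖z‖ * s⁻¹ := by gcongr
              _ = _ := by ring
          rcases h5 with h5 | h5
          · refine h8.trans ?_
            gcongr
          · rw [h5] at h8 ⊢
            refine h8.trans ?_
            simp
        · have h5 : min (t j * ‖z‖) (t j * ‖z‖)⁻¹ = (t j * ‖z‖)⁻¹ :=
            min_eq_right ((inv_le_one_of_one_le₀ h4).trans h4)
          rw [h5, norm_inv]
          have h6 : s * (t j * ‖z‖) ≤ ‖1 - (t j : ℂ) * z‖ :=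
            le_trans (by gcongr; exact le_max_right _ _) hlb
          have h7 : ‖1 - (t j : ℂ) * z‖⁻¹ ≤ (s * (t j * ‖z‖))⁻¹ := by
            have : 0 < s * (t j * ‖z‖) := by nlinarith
            gcongr
          rw [mul_inv] at h7
          linarith
      simp only [hh]
      rw [norm_mul, hJc]
      have h9 : ∑ j ∈ Finset.range J, min (t j * ‖z‖) (t j * ‖z‖)⁻¹ ≤ 4 := by
        rcases eq_or_ne z 0 with rfl | hz0
        · simp
        · have hzn : 0 < ‖z‖ := norm_pos_iff.2 hz0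
          rw [← Finset.sum_range_reflect]
          refine le_trans (le_of_eq ?_) (dyadic_sum' J (8 ^ J * ‖z‖ / 2 ^ J) (by positivity))
          refine Finset.sum_congr rfl (fun j hj => ?_)
          have hj' := Finset.mem_range.1 hj
          have e : t (J - 1 - j) * ‖z‖ = 2 ^ j * (8 ^ J * ‖z‖ / 2 ^ J) := by
            simp only [ht]
            have e1 : J - 1 - j + 1 = J - j := by omega
            have e2 : (2 : ℝ) ^ J = 2 ^ (J - j) * 2 ^ j := by
              rw [← pow_add]; congr 1; omega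
            rw [e1, e2]
            field_simp
          rw [e]
      calc (J : ℝ)⁻¹ * ‖∑ j ∈ Finset.range J, (1 - (t j : ℂ) * z)⁻¹‖
          ≤ (J : ℝ)⁻¹ * ∑ j ∈ Finset.range J,
              (1 + s⁻¹ * min (t j * ‖z‖) (t j * ‖z‖)⁻¹) := by
            gcongr
            exact (norm_sum_le _ _).trans (Finset.sum_le_sum (fun j _ => h3 j))
        _ = (J : ℝ)⁻¹ * (J + s⁻¹ * ∑ j ∈ Finset.range J, min (t j * ‖z‖) (t j * ‖z‖)⁻¹) := by
            rw [Finset.sum_add_distrib, ← Finset.mul_sum]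
            simp
        _ ≤ (J : ℝ)⁻¹ * (J + s⁻¹ * 4) := by gcongr
        _ = _ := by field_simp
    calc ‖Q.eval z‖ = ‖(Q.eval z - h z) + h z‖ := by ring_nf
      _ ≤ ‖Q.eval z - h z‖ + ‖h z‖ := norm_add_le _ _
      _ ≤ 1 + τ := by linarith
  · intro z hz hzc hzb
    have hzK : z ∈ K := ⟨hz, Or.inl (not_lt.1 hzc)⟩
    have h1 := hQh z hzK
    have hzn : 0 < ‖z‖ := lt_of_lt_of_le (by positivity) hzb
    have h2 : ‖h z‖ ≤ 2 / (s * J) := by
      simp only [hh]
      rw [norm_mul, hJc]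
      calc (J : ℝ)⁻¹ * ‖∑ j ∈ Finset.range J, (1 - (t j : ℂ) * z)⁻¹‖
          ≤ (J : ℝ)⁻¹ * ∑ j ∈ Finset.range J, (s⁻¹ * (2 * (1 / 4) ^ J) * 2 ^ j) := by
            gcongr
            refine (norm_sum_le _ _).trans (Finset.sum_le_sum (fun j _ => ?_))
            have hlb := hb1 z hz hzc j
            have h6 : s * (t j * ‖z‖) ≤ ‖1 - (t j : ℂ) * z‖ :=
              le_trans (by gcongr; exact le_max_right _ _) hlb
            have h7 : s * (t j * (1 / 2) ^ J) ≤ ‖1 - (t j : ℂ) * z‖ := by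
              refine le_trans ?_ h6
              have := ht0 j
              gcongr
            have h8 : 0 < s * (t j * (1 / 2) ^ J) := by have := ht0 j; positivity
            rw [norm_inv]
            have h9 : ‖1 - (t j : ℂ) * z‖⁻¹ ≤ (s * (t j * (1 / 2) ^ J))⁻¹ := by gcongr
            refine h9.trans (le_of_eq ?_)
            simp only [ht]
            have e8 : (8 : ℝ) ^ J = 4 ^ J * 2 ^ J := by rw [← mul_pow]; norm_num
            rw [e8, div_pow, div_pow, one_pow]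
            field_simp
            ring
        _ = (J : ℝ)⁻¹ * (s⁻¹ * (2 * (1 / 4) ^ J) * ∑ j ∈ Finset.range J, 2 ^ j) := by
            rw [← Finset.mul_sum]
        _ ≤ (J : ℝ)⁻¹ * (s⁻¹ * 2) := by
            have h10 : ∑ j ∈ Finset.range J, (2 : ℝ) ^ j ≤ 2 ^ J := by
              have := geom_sum_eq (show (2 : ℝ) ≠ 1 by norm_num) J
              rw [this]
              norm_num
            have h11 : (1 / 4 : ℝ) ^ J * 2 ^ J ≤ 1 := by
              rw [← mul_pow]
              exact pow_le_one₀ (by norm_num) (by norm_num)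
            calc (J : ℝ)⁻¹ * (s⁻¹ * (2 * (1 / 4) ^ J) * ∑ j ∈ Finset.range J, 2 ^ j)
                ≤ (J : ℝ)⁻¹ * (s⁻¹ * (2 * (1 / 4) ^ J) * 2 ^ J) := by gcongr
              _ = (J : ℝ)⁻¹ * (s⁻¹ * (2 * ((1 / 4) ^ J * 2 ^ J))) := by ring
              _ ≤ (J : ℝ)⁻¹ * (s⁻¹ * (2 * 1)) := by gcongr
              _ = _ := by ring
        _ = _ := by field_simp
    have h3 : 2 / (s * J) ≤ σ / 4 := by
      have : 2 / (s * J) = (4 / (s * J)) / 2 := by ring
      rw [this]; linarith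
    calc ‖Q.eval z‖ = ‖(Q.eval z - h z) + h z‖ := by ring_nf
      _ ≤ ‖Q.eval z - h z‖ + ‖h z‖ := norm_add_le _ _
      _ ≤ 1 / 2 := by linarith

end Pool.Agent.Run7.h693.RZ
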