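import Pool.Agent.Run7.h693.RZ.STG

/-!
# The product of the stages
-/

set_option autoImplicit false

open MeasureTheory Polynomial Filter Topology

namespace Pool.Agent.Run7.h693.RZ

lemma geo_sum (K : ℕ) : ∑ k ∈ Finset.range K, (1 / 2 : ℝ) ^ (k + 2) ≤ 1 / 2 - (1 / 2) ^ (K + 1) := by
  induction K with
  | zero => simp
  | succ K ih =>
    rw [Finset.sum_range_succ]
    have h2 : (1 / 2 : ℝ) ^ (K + 1 + 1) = (1 / 2) ^ (K + 1) * (1 / 2) := pow_succ _ _
    rw [h2]
    linarith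

lemma geo_prod (j K : ℕ) : ∏ k ∈ Finset.Ico j K, (1 + (1 / 2 : ℝ) ^ (k + 2)) ≤ 2 := by
  have h1 : ∏ k ∈ Finset.Ico j K, (1 + (1 / 2 : ℝ) ^ (k + 2)) ≤
      ∏ k ∈ Finset.Ico j K, Real.exp ((1 / 2 : ℝ) ^ (k + 2)) := by
    apply Finset.prod_le_prod
    · intro k _; positivity
    · intro k _
      linarith [Real.add_one_le_exp ((1 / 2 : ℝ) ^ (k + 2))]
  refine h1.trans ?_
  rw [← Real.exp_sum]
  have h2 : ∑ k ∈ Finset.Ico j K, (1 / 2 : ℝ) ^ (k + 2) ≤ 1 / 2 := by
    have h3 : ∑ k ∈ Finset.Ico j K, (1 / 2 : ℝ) ^ (k + 2) ≤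
        ∑ k ∈ Finset.range K, (1 / 2 : ℝ) ^ (k + 2) := by
      apply Finset.sum_le_sum_of_subset_of_nonneg
      · intro k hk
        rw [Finset.mem_Ico] at hk
        exact Finset.mem_range.2 hk.2
      · intro k _ _; positivity
    have h4 := geo_sum K
    have h5 : (0 : ℝ) < (1 / 2) ^ (K + 1) := by positivity
    linarith
  have h6 : Real.exp (1 / 2) ≤ 1 / (1 - 1 / 2) :=
    Real.exp_bound_div_one_sub_of_interval (by norm_num) (by norm_num)
  have h7 := Real.exp_le_exp.2 h2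
  norm_num at h6
  linarith

theorem t_PRO (hlim : S_LIM) : S_PRO := by
  intro n g Z r0 hg hr0 h1 h2 h3
  set F : ℕ → (Fin n → ℂ) → ℂ := fun K z => ∏ k ∈ Finset.range K, g k z with hF
  have hFd : ∀ K, Differentiable ℂ (F K) := fun K => differentiable_prod_of _ _ (fun k _ => hg k)
  set P : ℕ → (Fin n → ℂ) → ℂ := fun K z => F (K + 1) z - F K z with hP
  have hPd : ∀ K, Differentiable ℂ (P K) := fun K => (hFd (K + 1)).sub (hFd K)
  have hPe : ∀ K z, P K z = F K z * (g K z - 1) := by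
    intro K z
    simp only [hP, hF, Finset.prod_range_succ]
    ring
  have hsplit : ∀ j K z, j ≤ K → F K z = F j z * ∏ k ∈ Finset.Ico j K, g k z := by
    intro j K z hjK
    simp only [hF]
    rw [Finset.prod_range_mul_prod_Ico _ hjK]
  have hgrow : ∀ j K z, j ≤ K → (∀ k, j ≤ k → ‖g k z‖ ≤ 1 + (1 / 2) ^ (k + 2)) →
      ‖F K z‖ ≤ ‖F j z‖ * 2 := by
    intro j K z hjK hk
    have hY : ‖∏ k ∈ Finset.Ico j K, g k z‖ = ∏ k ∈ Finset.Ico j K, ‖g k z‖ := norm_prod _ _
    rw [hsplit j K z hjK, norm_mul, hY]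
    gcongr
    refine le_trans ?_ (geo_prod j K)
    apply Finset.prod_le_prod
    · intro k _; exact norm_nonneg _
    · intro k hk'
      exact hk k (Finset.mem_Ico.1 hk').1
  have hbd : ∀ j, ∃ C : ℝ, 0 ≤ C ∧ ∀ z ∈ Bal n 1, ‖F j z‖ ≤ C := by
    intro j
    obtain ⟨C, hC⟩ := (isCompact_Bal n 1).exists_bound_of_continuousOn (hFd j).continuous.continuousOn
    exact ⟨max C 0, le_max_right _ _, fun z hz => (hC z hz).trans (le_max_left _ _)⟩
  have hgle : ∀ k z, nrm z ≤ 1 - (1 / 2) ^ (k + 1) → ‖g k z‖ ≤ 1 + (1 / 2) ^ (k + 2) := by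
    intro k z hz
    have h4 := h1 k z hz
    calc ‖g k z‖ = ‖1 + (g k z - 1)‖ := by ring_nf
      _ ≤ ‖(1 : ℂ)‖ + ‖g k z - 1‖ := norm_add_le _ _
      _ ≤ _ := by rw [norm_one]; linarith
  have hsum := hlim n P hPd (by
    intro R hR0 hR1
    obtain ⟨k0, hk0⟩ := exists_pow_lt_of_lt_one (show (0 : ℝ) < 1 - R by linarith)
      (show (1 / 2 : ℝ) < 1 by norm_num)
    obtain ⟨C, hC0, hC⟩ := hbd k0
    refine ⟨2 * C, k0, fun k hk z hz => ?_⟩
    have hpow : ∀ j, k0 ≤ j → R ≤ 1 - (1 / 2) ^ (j + 1) := by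
      intro j hj
      have : (1 / 2 : ℝ) ^ (j + 1) ≤ (1 / 2) ^ k0 :=
        pow_le_pow_of_le_one (by norm_num) (by norm_num) (by omega)
      linarith
    rw [hPe, norm_mul]
    have h5 : ‖F k z‖ ≤ C * 2 := by
      refine (hgrow k0 k z hk (fun j hj => hgle j z (hz.trans (hpow j hj)))).trans ?_
      gcongr
      exact hC z (show nrm z ≤ 1 by linarith)
    have h6 : ‖g k z - 1‖ ≤ (1 / 2) ^ k := by
      refine (h1 k z (hz.trans (hpow k hk))).trans ?_
      exact pow_le_pow_of_le_one (by norm_num) (by norm_num) (by omega)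
    calc ‖F k z‖ * ‖g k z - 1‖ ≤ (C * 2) * (1 / 2) ^ k := by gcongr
      _ = 2 * C * (1 / 2) ^ k := by ring)
  obtain ⟨hD, hS⟩ := hsum
  set f : (Fin n → ℂ) → ℂ := fun z => 1 + ∑' k, P k z with hf
  have hlimF : ∀ z, nrm z < 1 → Tendsto (fun K => F K z) atTop (𝓝 (f z)) := by
    intro z hz
    have h4 := (hS z hz).hasSum.tendsto_sum_nat
    have h5 : ∀ K, F K z = 1 + ∑ k ∈ Finset.range K, P k z := by
      intro K
      have h6 : ∑ k ∈ Finset.range K, P k z = F K z - F 0 z := by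
        simp only [hP]
        exact Finset.sum_range_sub (fun k => F k z) K
      have h7 : F 0 z = 1 := by simp [hF]
      rw [h6, h7]
      ring
    simp only [h5]
    exact h4.const_add 1
  refine ⟨f, ?_, ?_, ?_⟩
  · exact hD.const_add 1
  · have h4 : ∀ K, 1 - ∑ k ∈ Finset.range K, (1 / 2 : ℝ) ^ (k + 2) ≤ ‖F K 0‖ := by
      intro K
      induction K with
      | zero => simp [hF]
      | succ K ih =>
        have h5 : F (K + 1) 0 = F K 0 * g K 0 := by
          simp only [hF, Finset.prod_range_succ]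
        rw [h5, norm_mul, Finset.sum_range_succ]
        have h6 : 1 - (1 / 2 : ℝ) ^ (K + 2) ≤ ‖g K 0‖ := by
          have h7 := h1 K 0 (by
            have : nrm (0 : Fin n → ℂ) = 0 := nrm_eq_zero.2 rfl
            rw [this, sub_nonneg]
            exact pow_le_one₀ (by norm_num) (by norm_num))
          have h8 : ‖(1 : ℂ)‖ - ‖g K 0‖ ≤ ‖(1 : ℂ) - g K 0‖ := norm_sub_norm_le _ _
          rw [norm_one, norm_sub_rev] at h8
          linarith
        have h9 := geo_sum K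
        have h10 : (0 : ℝ) < (1 / 2) ^ (K + 1) := by positivity
        have h11 : (0 : ℝ) < (1 / 2) ^ (K + 2) := by positivity
        have h12 : (1 / 2 : ℝ) ^ (K + 2) ≤ 1 := pow_le_one₀ (by norm_num) (by norm_num)
        have h13 : 0 ≤ ∑ k ∈ Finset.range K, (1 / 2 : ℝ) ^ (k + 2) :=
          Finset.sum_nonneg (fun k _ => by positivity)
        have h14 : (1 - ∑ k ∈ Finset.range K, (1 / 2 : ℝ) ^ (k + 2)) * (1 - (1 / 2 : ℝ) ^ (K + 2)) ≤
            ‖F K 0‖ * ‖g K 0‖ := by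
          apply mul_le_mul ih h6 (by linarith) (norm_nonneg _)
        nlinarith
    have h5 : (1 / 2 : ℝ) ≤ ‖f 0‖ := by
      apply ge_of_tendsto' ((hlimF 0 (by rw [nrm_eq_zero.2 rfl]; norm_num)).norm)
      intro K
      have h6 := h4 K
      have h7 := geo_sum K
      have h8 : (0 : ℝ) < (1 / 2) ^ (K + 1) := by positivity
      linarith
    intro h6
    rw [h6, norm_zero] at h5
    norm_num at h5
  · intro z hz0 hzZ
    obtain ⟨k0, hk0⟩ := eventually_atTop.1 hzZ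
    obtain ⟨C, hC0, hC⟩ := hbd k0
    have hzp := nrm_pos hz0
    rw [Metric.tendsto_nhds]
    intro ε hε
    obtain ⟨L, hL⟩ := exists_pow_lt_of_lt_one (show (0 : ℝ) < ε / (2 * C + 1) by positivity)
      (show (1 / 2 : ℝ) < 1 by norm_num)
    have hev1 : ∀ᶠ r in 𝓝[<] (1 : ℝ), 0 ≤ r ∧ r < 1 := by
      have h4 : Set.Ioo (0 : ℝ) 1 ∈ 𝓝[<] (1 : ℝ) := Ioo_mem_nhdsLT one_pos
      filter_upwards [h4] with r hr
      exact ⟨hr.1.le, hr.2⟩
    have hev2 : ∀ᶠ r in 𝓝[<] (1 : ℝ), ∀ k ∈ Finset.Ico k0 (k0 + L), r0 k ≤ r := by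
      rw [Filter.eventually_all_finset]
      intro k _
      have h4 : Set.Ioo (r0 k) 1 ∈ 𝓝[<] (1 : ℝ) := Ioo_mem_nhdsLT (hr0 k).2
      filter_upwards [h4] with r hr
      exact hr.1.le
    filter_upwards [hev1, hev2] with r hr hrk
    rw [dist_zero_right]
    set x : Fin n → ℂ := ((r / nrm z : ℝ) : ℂ) • z with hx
    have hxn : nrm x = r := by
      rw [hx, nrm_smul, Complex.norm_real, Real.norm_of_nonneg (div_nonneg hr.1 hzp.le),
        div_mul_cancel₀ _ hzp.ne']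
    have hx1 : nrm x < 1 := by rw [hxn]; exact hr.2
    have hbig : ∀ K, k0 + L ≤ K → ‖F K x‖ ≤ C * ((1 / 2) ^ L * 2) := by
      intro K hK
      have hY : ‖∏ k ∈ Finset.Ico k0 K, g k x‖ = ∏ k ∈ Finset.Ico k0 K, ‖g k x‖ := norm_prod _ _
      rw [hsplit k0 K x (by omega), norm_mul, hY]
      gcongr
      · exact hC x (show nrm x ≤ 1 from hx1.le)
      · rw [← Finset.prod_Ico_consecutive _ (show k0 ≤ k0 + L by omega) hK]
        have h4 : ∏ k ∈ Finset.Ico k0 (k0 + L), ‖g k x‖ ≤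
            ∏ k ∈ Finset.Ico k0 (k0 + L), (1 / 2 * (1 + (1 / 2 : ℝ) ^ (k + 2))) := by
          apply Finset.prod_le_prod
          · intro k _; exact norm_nonneg _
          · intro k hk
            exact h3 k z (hk0 k (Finset.mem_Ico.1 hk).1) hz0 r (hrk k hk) hr.2.le
        have h5 : ∏ k ∈ Finset.Ico (k0 + L) K, ‖g k x‖ ≤
            ∏ k ∈ Finset.Ico (k0 + L) K, (1 + (1 / 2 : ℝ) ^ (k + 2)) := by
          apply Finset.prod_le_prod
          · intro k _; exact norm_nonneg _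
          · intro k hk
            exact h2 k z (hk0 k (by have := (Finset.mem_Ico.1 hk).1; omega)) hz0 r hr.1 hr.2.le
        have h6 := geo_prod k0 K
        rw [← Finset.prod_Ico_consecutive _ (show k0 ≤ k0 + L by omega) hK] at h6
        rw [Finset.prod_mul_distrib, Finset.prod_const, Nat.card_Ico, Nat.add_sub_cancel_left] at h4
        calc (∏ k ∈ Finset.Ico k0 (k0 + L), ‖g k x‖) * ∏ k ∈ Finset.Ico (k0 + L) K, ‖g k x‖
            ≤ ((1 / 2) ^ L * ∏ k ∈ Finset.Ico k0 (k0 + L), (1 + (1 / 2 : ℝ) ^ (k + 2))) *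
              ∏ k ∈ Finset.Ico (k0 + L) K, (1 + (1 / 2 : ℝ) ^ (k + 2)) := by
              apply mul_le_mul h4 h5
              · exact Finset.prod_nonneg (fun k _ => norm_nonneg _)
              · apply mul_nonneg (by positivity)
                exact Finset.prod_nonneg (fun k _ => by positivity)
          _ = (1 / 2) ^ L * ((∏ k ∈ Finset.Ico k0 (k0 + L), (1 + (1 / 2 : ℝ) ^ (k + 2))) *
              ∏ k ∈ Finset.Ico (k0 + L) K, (1 + (1 / 2 : ℝ) ^ (k + 2))) := by ring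
          _ ≤ (1 / 2) ^ L * 2 := by gcongr
    have hfx : ‖f x‖ ≤ C * ((1 / 2) ^ L * 2) := by
      apply le_of_tendsto ((hlimF x hx1).norm)
      filter_upwards [eventually_ge_atTop (k0 + L)] with K hK
      exact hbig K hK
    refine lt_of_le_of_lt hfx ?_
    rw [lt_div_iff₀ (by positivity)] at hL
    have : (0 : ℝ) < (1 / 2) ^ L := by positivity
    nlinarith

end Pool.Agent.Run7.h693.RZ
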