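import Pool.Agent.Run7.h693.RZ.Defs

/-!
# One stage
-/

set_option autoImplicit false

open MeasureTheory Polynomial
open scoped ENNReal

namespace Pool.Agent.Run7.h693.RZ

lemma norm_prod_le_of {ι : Type*} (H : Finset ι) (x : ι → ℂ) (b : ℝ)
    (h : ∀ i ∈ H, ‖x i‖ ≤ b) : ‖∏ i ∈ H, x i‖ ≤ b ^ H.card := by
  rw [norm_prod]
  calc ∏ i ∈ H, ‖x i‖ ≤ ∏ _i ∈ H, b :=
        Finset.prod_le_prod (fun i _ => norm_nonneg _) h
    _ = b ^ H.card := by rw [Finset.prod_const]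

lemma differentiable_prod_of {ι E : Type*} [NormedAddCommGroup E] [NormedSpace ℂ E] (H : Finset ι)
    (f : ι → E → ℂ) (h : ∀ i ∈ H, Differentiable ℂ (f i)) :
    Differentiable ℂ (fun z => ∏ i ∈ H, f i z) := by
  classical
  induction H using Finset.induction_on with
  | empty => simp
  | insert a s ha ih =>
    have h1 : (fun z => ∏ i ∈ insert a s, f i z) = fun z => f a z * ∏ i ∈ s, f i z := by
      ext z
      rw [Finset.prod_insert ha]
    rw [h1]
    exact (h a (Finset.mem_insert_self _ _)).mul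
      (ih (fun i hi => h i (Finset.mem_insert_of_mem hi)))

theorem t_STG (hone : S_ONE) (hmea : S_MEA) (hcov : S_COV) : S_STG := by
  intro n ε R hε hε1 hR0 hR1
  obtain ⟨N0, hN0⟩ := exists_pow_lt_of_lt_one (show (0 : ℝ) < 1 / 8 by norm_num) hR1
  set N1 : ℕ := N0 + 1 with hN1def
  have hN1 : R ^ N1 ≤ 1 / 8 := by
    have : R ^ N1 ≤ R ^ N0 := pow_le_pow_of_le_one hR0 hR1.le (Nat.le_succ _)
    linarith
  obtain ⟨H, hH1, hHc⟩ := hcov n N1
  set m : ℕ := H.card with hm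
  set τ : ℝ := ε / (2 * (m + 1)) with hτdef
  have hτ : 0 < τ := by positivity
  have hmτ : (m : ℝ) * τ ≤ ε / 2 := by
    rw [hτdef, ← mul_div_assoc, div_le_div_iff₀ (by positivity) (by norm_num)]
    nlinarith
  have hexp : Real.exp ((m : ℝ) * τ) ≤ 1 + ε := by
    have h1 : Real.exp ((m : ℝ) * τ) ≤ Real.exp (ε / 2) := Real.exp_le_exp.2 hmτ
    have h2 : Real.exp (ε / 2) ≤ 1 / (1 - ε / 2) :=
      Real.exp_bound_div_one_sub_of_interval (by linarith) (by linarith)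
    have h3 : 1 / (1 - ε / 2) ≤ 1 + ε := by
      rw [div_le_iff₀ (by linarith)]
      nlinarith
    linarith
  have hpow : (1 + τ) ^ m ≤ 1 + ε := by
    have h1 : 1 + τ ≤ Real.exp τ := by linarith [Real.add_one_le_exp τ]
    calc (1 + τ) ^ m ≤ Real.exp τ ^ m := by gcongr
      _ = Real.exp ((m : ℝ) * τ) := by rw [← Real.exp_nat_mul]
      _ ≤ 1 + ε := hexp
  obtain ⟨Q0, hQ0⟩ := exists_nat_ge ((m : ℝ) / ε)
  set Q : ℕ := Q0 + 1 with hQdef
  have hQ : (m : ℝ) ≤ ε * Q := by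
    rw [div_le_iff₀ hε] at hQ0
    rw [hQdef]
    push_cast
    nlinarith
  obtain ⟨c, hc0, hc1, hc⟩ := hmea n Q (by omega)
  obtain ⟨N, p, hN, hp1, hp2, hp3⟩ := hone c hc0 hc1 τ hτ
  set M : ℕ := N1 * N with hMdef
  have hM : 1 ≤ M := Nat.mul_pos (by omega) hN
  -- points of good radii
  have hgood : ∀ z : Fin n → ℂ, z ∉ (⋃ w ∈ H, {z : Fin n → ℂ | (ip z w) ^ M ∈ Sec c}) → z ≠ 0 →
      ∀ r : ℝ, 0 ≤ r → r ≤ 1 → ∀ w ∈ H, (ip (((r / nrm z : ℝ) : ℂ) • z) w) ^ M ∉ Sec c ∧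
        ‖(ip (((r / nrm z : ℝ) : ℂ) • z) w) ^ M‖ ≤ 1 := by
    intro z hz hz0 r hr0 hr1 w hw
    have hzp := nrm_pos hz0
    constructor
    · intro h
      apply hz
      refine Set.mem_iUnion₂.2 ⟨w, hw, ?_⟩
      rw [ip_smul, mul_pow, ← Complex.ofReal_pow] at h
      exact Sec_smul (by positivity) h
    · rw [norm_pow]
      apply pow_le_one₀ (norm_nonneg _)
      refine (norm_ip_le _ _).trans ?_
      rw [hH1 w hw, mul_one, nrm_smul, Complex.norm_real, Real.norm_of_nonneg (by positivity),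
        div_mul_cancel₀ _ hzp.ne']
      exact hr1
  refine ⟨fun z => ∏ w ∈ H, p.eval ((ip z w) ^ M), ⋃ w ∈ H, {z | (ip z w) ^ M ∈ Sec c},
    1 - 1 / (3 * N1), ?_, ?_, ?_, ?_, ?_, ?_, ?_, ?_⟩
  · apply differentiable_prod_of
    intro w _
    exact p.differentiable.comp ((differentiable_ip w).pow M)
  · apply H.measurableSet_biUnion
    intro w _
    exact ((isOpen_Sec c).preimage ((continuous_ip w).pow M)).measurableSet
  · have : (1 : ℝ) ≤ N1 := by rw [hN1def]; push_cast; linarith [(Nat.cast_nonneg N0 : (0 : ℝ) ≤ N0)]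
    rw [sub_nonneg, div_le_one (by positivity)]
    linarith
  · have : (0 : ℝ) < N1 := by rw [hN1def]; positivity
    have : (0 : ℝ) < 1 / (3 * N1) := by positivity
    linarith
  · intro z hz
    have h1 : ∀ w ∈ H, ‖p.eval ((ip z w) ^ M) - 1‖ ≤ τ := by
      intro w hw
      apply hp1
      rw [hMdef, pow_mul, norm_pow, norm_pow]
      apply pow_le_pow_left₀ (by positivity)
      refine le_trans ?_ hN1
      apply pow_le_pow_left₀ (norm_nonneg _)
      refine (norm_ip_le _ _).trans ?_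
      rw [hH1 w hw, mul_one]
      exact hz
    have h2 := Finset.norm_prod_one_add_sub_one_le H (fun w => p.eval ((ip z w) ^ M) - 1)
    have h3 : ∏ w ∈ H, (1 + (p.eval ((ip z w) ^ M) - 1)) = ∏ w ∈ H, p.eval ((ip z w) ^ M) := by
      refine Finset.prod_congr rfl (fun w _ => by ring)
    rw [h3] at h2
    refine h2.trans ?_
    have h4 : ∑ w ∈ H, ‖p.eval ((ip z w) ^ M) - 1‖ ≤ (m : ℝ) * τ := by
      refine (Finset.sum_le_sum h1).trans ?_
      rw [Finset.sum_const, nsmul_eq_mul]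
    have h5 := Real.exp_le_exp.2 h4
    linarith
  · intro a
    rw [Set.iUnion₂_inter]
    have hQ0' : (Q : ENNReal) ≠ 0 := by
      rw [hQdef]; exact_mod_cast Nat.succ_ne_zero Q0
    have hQt : (Q : ENNReal) ≠ ⊤ := ENNReal.natCast_ne_top _
    have h1 : ∀ w ∈ H, volume ({z : Fin n → ℂ | (ip z w) ^ M ∈ Sec c} ∩ Bal n a) ≤
        volume (Bal n a) / Q := by
      intro w _
      rw [ENNReal.le_div_iff_mul_le (Or.inl hQ0') (Or.inl hQt), mul_comm]
      exact hc M hM w a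
    refine (measure_biUnion_finset_le H _).trans ?_
    refine (Finset.sum_le_sum h1).trans ?_
    rw [Finset.sum_const, nsmul_eq_mul, ← hm, div_eq_mul_inv, mul_left_comm, mul_comm]
    gcongr
    rw [← div_eq_mul_inv]
    apply ENNReal.div_le_of_le_mul
    have h2 : ((m : ℝ≥0∞)) = ENNReal.ofReal (m : ℝ) := by rw [ENNReal.ofReal_natCast]
    have h3 : ((Q : ℝ≥0∞)) = ENNReal.ofReal (Q : ℝ) := by rw [ENNReal.ofReal_natCast]
    rw [h2, h3, ← ENNReal.ofReal_mul hε.le]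
    exact ENNReal.ofReal_le_ofReal hQ
  · intro z hz hz0 r hr0 hr1
    refine le_trans (norm_prod_le_of H _ (1 + τ) ?_) hpow
    intro w hw
    obtain ⟨h1, h2⟩ := hgood z hz hz0 r hr0 hr1 w hw
    exact hp2 _ h2 h1
  · intro z hz hz0 r hr hr1
    have hzp := nrm_pos hz0
    have hN1p : (1 : ℝ) ≤ N1 := by
      rw [hN1def]; push_cast; linarith [(Nat.cast_nonneg N0 : (0 : ℝ) ≤ N0)]
    have hr00 : (0 : ℝ) ≤ 1 - 1 / (3 * N1) := by
      rw [sub_nonneg, div_le_one (by positivity)]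
      linarith
    have hr0 : 0 ≤ r := hr00.trans hr
    have hrN : 2 / 3 ≤ r ^ N1 := by
      have h1 : 1 + (N1 : ℝ) * (-(1 / (3 * N1))) ≤ (1 + (-(1 / (3 * N1)))) ^ N1 := by
        apply one_add_mul_le_pow
        have : 1 / (3 * (N1 : ℝ)) ≤ 1 := by
          rw [div_le_one (by positivity)]; linarith
        linarith
      have h2 : (N1 : ℝ) * (-(1 / (3 * N1))) = - (1 / 3) := by
        field_simp
      have h3 : (1 + (-(1 / (3 * (N1 : ℝ))))) ^ N1 ≤ r ^ N1 := by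
        apply pow_le_pow_left₀ (by linarith)
        linarith
      rw [h2] at h1
      linarith
    have hz1 : nrm (((1 / nrm z : ℝ) : ℂ) • z) = 1 := by
      rw [nrm_smul, Complex.norm_real, Real.norm_of_nonneg (by positivity)]
      field_simp
    obtain ⟨w0, hw0, hcw⟩ := hHc _ hz1
    have hip : ip (((r / nrm z : ℝ) : ℂ) • z) w0 = (r : ℂ) * ip (((1 / nrm z : ℝ) : ℂ) • z) w0 := by
      rw [ip_smul, ip_smul]
      push_cast
      ring
    have hbig : (1 / 2 : ℝ) ^ N ≤ ‖(ip (((r / nrm z : ℝ) : ℂ) • z) w0) ^ M‖ := by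
      rw [hMdef, pow_mul, norm_pow, norm_pow]
      apply pow_le_pow_left₀ (by norm_num)
      rw [hip, norm_mul, mul_pow, Complex.norm_real, Real.norm_of_nonneg hr0]
      have : (2 / 3 : ℝ) * (3 / 4) ≤ r ^ N1 * ‖ip (((1 / nrm z : ℝ) : ℂ) • z) w0‖ ^ N1 := by
        gcongr
      linarith
    obtain ⟨h1, h2⟩ := hgood z hz hz0 r hr0 hr1 w0 hw0
    have h3 := hp3 _ h2 h1 hbig
    change ‖∏ w ∈ H, p.eval ((ip (((r / nrm z : ℝ) : ℂ) • z) w) ^ M)‖ ≤ _
    rw [← Finset.mul_prod_erase H _ hw0, norm_mul]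
    have h4 : ‖∏ w ∈ H.erase w0, p.eval ((ip (((r / nrm z : ℝ) : ℂ) • z) w) ^ M)‖ ≤ 1 + ε := by
      refine (norm_prod_le_of (H.erase w0) _ (1 + τ) ?_).trans ?_
      · intro w hw
        obtain ⟨h1, h2⟩ := hgood z hz hz0 r hr0 hr1 w (Finset.mem_of_mem_erase hw)
        exact hp2 _ h2 h1
      · refine le_trans ?_ hpow
        apply pow_le_pow_right₀ (by linarith)
        rw [hm]
        exact Finset.card_erase_le
    gcongr

end Pool.Agent.Run7.h693.RZ
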